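import Pool.Agent.Q170.AS.Fld

/-!
# The antisymmetric part `V_-` of `St ⊗ St` is simple

`G = SL₂` of the algebraic closure of `𝔽_p`, `M(tr) = k G ⊗_{k B} k_tr` is the permutation module
`k[G/B]`, `St` the Steinberg module, `V_-` the span of
`ρ_{x,y} = ½ (e_x ⊗ e_y - e_y ⊗ e_x)`.
-/

set_option autoImplicit false
set_option linter.unusedSectionVars false

open scoped TensorProduct Matrix BigOperators

namespace Pool.Agent.Results.MP_79d1ba_al.AltSquareSimple

noncomputable section

universe u

variable (p : ℕ) [Fact p.Prime] (k : Type u) [Field k]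

/-- The algebraic closure of `𝔽_p`; it is also the algebraic closure of `𝔽_q` for every power `q`
of `p`. -/
abbrev Fbar : Type := AlgebraicClosure (ZMod p)

/-- `G = SL₂` of the algebraic closure, as an abstract group. -/
abbrev G : Type := Matrix.SpecialLinearGroup (Fin 2) (Fbar p)

lemma B_mul {a b : G p} (ha : a ∈ {g : G p | g 1 0 = 0}) (hb : b ∈ {g : G p | g 1 0 = 0}) :
    a * b ∈ {g : G p | g 1 0 = 0} := by
  simp only [Set.mem_ofPred_eq] at ha hb ⊢
  simp [Matrix.mul_apply, Fin.sum_univ_two, ha, hb]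

lemma B_one : (1 : G p) ∈ {g : G p | g 1 0 = 0} := by simp

lemma B_inv {a : G p} (ha : a ∈ {g : G p | g 1 0 = 0}) : a⁻¹ ∈ {g : G p | g 1 0 = 0} := by
  simp only [Set.mem_ofPred_eq] at ha ⊢
  simp [Matrix.SpecialLinearGroup.coe_inv, Matrix.adjugate_fin_two, ha]

/-- The subgroup `B` of upper triangular matrices. -/
def B : Subgroup (G p) where
  carrier := {g | g 1 0 = 0}
  one_mem' := B_one p
  mul_mem' := B_mul p
  inv_mem' := B_inv p

/-- `M(tr) = k G ⊗_{k B} k_tr`, the permutation module `k[G/B]`; the coset `g B` corresponds to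
`g ⊗ 1`. -/
def M : Type u := (G p ⧸ B p) →₀ k

instance instM : AddCommGroup (M p k) := inferInstanceAs (AddCommGroup ((G p ⧸ B p) →₀ k))
instance instMod : Module k (M p k) := inferInstanceAs (Module k ((G p ⧸ B p) →₀ k))

/-- The action of `g ∈ G` on `M(tr)`. -/
def act (g : G p) : M p k →ₗ[k] M p k := Finsupp.lmapDomain k k (fun y : G p ⧸ B p => g • y)

lemma eps_det (x : Fbar p) : Matrix.det !![1, x; 0, 1] = 1 := by simp

/-- `ε(x)`. -/
def eps (x : Fbar p) : G p := ⟨!![1, x; 0, 1], eps_det p x⟩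

lemma s_det : Matrix.det (!![0, 1; -1, 0] : Matrix (Fin 2) (Fin 2) (Fbar p)) = 1 := by simp

/-- `s`. -/
def s : G p := ⟨!![0, 1; -1, 0], s_det p⟩

/-- `1_tr`. -/
def oneTr : M p k := Finsupp.single (QuotientGroup.mk (1 : G p)) 1

/-- `η = (1 - s) 1_tr`. -/
def eta : M p k := oneTr p k - act p k (s p) (oneTr p k)

/-- `e_x = ε(x) η`. -/
def e (x : Fbar p) : M p k := act p k (eps p x) (eta p k)

/-- `M(tr) ⊗ M(tr)`, which contains `St ⊗ St`. -/
def MM : Type u := M p k ⊗[k] M p k

instance instMM : AddCommGroup (MM p k) := inferInstanceAs (AddCommGroup (M p k ⊗[k] M p k))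
instance instModMM : Module k (MM p k) := inferInstanceAs (Module k (M p k ⊗[k] M p k))

/-- The pure tensor `u ⊗ v`. -/
def tm (a b : M p k) : MM p k := a ⊗ₜ[k] b

/-- `ρ_{x,y} = ½ (e_x ⊗ e_y - e_y ⊗ e_x)`. -/
def rho (x y : Fbar p) : MM p k :=
  (1 / 2 : k) • (tm p k (e p k x) (e p k y) - tm p k (e p k y) (e p k x))

/-- `V_-`, the span of the `ρ_{x,y}` with `x ≠ y`. -/
def Vminus : Submodule k (MM p k) :=
  Submodule.span k {t | ∃ x y : Fbar p, x ≠ y ∧ t = rho p k x y}

/-- The diagonal action of `g ∈ G` on `M(tr) ⊗ M(tr)`. -/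
def act2 (g : G p) : MM p k →ₗ[k] MM p k := TensorProduct.map (act p k g) (act p k g)

/-- `N` is stable under `G`. -/
def Stable (N : Submodule k (MM p k)) : Prop := ∀ g : G p, ∀ t ∈ N, act2 p k g t ∈ N

/-! ## Proof (over the unfolded types) -/

abbrev M0 : Type u := (G p ⧸ B p) →₀ k

def act0 (g : G p) : M0 p k →ₗ[k] M0 p k := Finsupp.lmapDomain k k (fun y => g • y)

def oneTr0 : M0 p k := Finsupp.single (QuotientGroup.mk (1 : G p)) 1

def eta0 : M0 p k := oneTr0 p k - act0 p k (s p) (oneTr0 p k)

def e0 (x : Fbar p) : M0 p k := act0 p k (eps p x) (eta0 p k)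

def rho0 (x y : Fbar p) : M0 p k ⊗[k] M0 p k :=
  (1 / 2 : k) • (e0 p k x ⊗ₜ[k] e0 p k y - e0 p k y ⊗ₜ[k] e0 p k x)

def Vminus0 : Submodule k (M0 p k ⊗[k] M0 p k) :=
  Submodule.span k {t | ∃ x y : Fbar p, x ≠ y ∧ t = rho0 p k x y}

def act20 (g : G p) : M0 p k ⊗[k] M0 p k →ₗ[k] M0 p k ⊗[k] M0 p k :=
  TensorProduct.map (act0 p k g) (act0 p k g)



instance : DecidableEq (Fbar p) := Classical.decEq _

/-- inclusion in `GL₂` -/
def toG : G p →* GL (Fin 2) (Fbar p) := Matrix.SpecialLinearGroup.toGL

lemma toG_inf (g : G p) : toG p g • (OnePoint.infty : OnePoint (Fbar p)) =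
    if g 1 0 = 0 then OnePoint.infty else ((g 0 0 / g 1 0 : Fbar p) : OnePoint (Fbar p)) :=
  OnePoint.smul_infty_eq_ite (toG p g)

lemma toG_some (g : G p) (x : Fbar p) : toG p g • (x : OnePoint (Fbar p)) =
    if g 1 0 * x + g 1 1 = 0 then OnePoint.infty else
      (((g 0 0 * x + g 0 1) / (g 1 0 * x + g 1 1) : Fbar p) : OnePoint (Fbar p)) :=
  OnePoint.smul_some_eq_ite (g := toG p g)

abbrev Y := G p ⧸ B p

/-- the map to the projective line -/
def piY : Y p → OnePoint (Fbar p) :=
  Quotient.lift (fun g : G p => toG p g • (OnePoint.infty : OnePoint (Fbar p))) (by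
    intro a b hab
    have h1 : a⁻¹ * b ∈ B p := QuotientGroup.leftRel_apply.1 hab
    have h2 : toG p (a⁻¹ * b) • (OnePoint.infty : OnePoint (Fbar p)) = OnePoint.infty := by
      rw [toG_inf]; exact if_pos h1
    have h3 : toG p b = toG p a * toG p (a⁻¹ * b) := by
      rw [← map_mul]; congr 1; group
    show toG p a • _ = toG p b • _
    rw [h3, mul_smul, h2])

lemma piY_mk (g : G p) : piY p (QuotientGroup.mk g) = toG p g • (OnePoint.infty) := rfl

lemma piY_smul (g : G p) (y : Y p) : piY p (g • y) = toG p g • piY p y := by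
  induction y using QuotientGroup.induction_on with
  | H h =>
    show piY p (QuotientGroup.mk (g * h)) = _
    rw [piY_mk, piY_mk, map_mul, mul_smul]

lemma piY_bij : Function.Bijective (piY p) := by
  constructor
  · intro y z
    induction y using QuotientGroup.induction_on with
    | H a =>
      induction z using QuotientGroup.induction_on with
      | H b =>
        intro h
        rw [piY_mk, piY_mk] at h
        apply QuotientGroup.eq.2
        show (a⁻¹ * b) 1 0 = 0
        have h2 : toG p (a⁻¹ * b) • (OnePoint.infty : OnePoint (Fbar p)) = OnePoint.infty := by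
          rw [map_mul, mul_smul, ← h, ← mul_smul, ← map_mul]
          simp
        by_contra h3
        rw [toG_inf, if_neg h3] at h2
        exact OnePoint.coe_ne_infty _ h2
  · intro x
    induction x using OnePoint.rec with
    | infty => exact ⟨QuotientGroup.mk 1, by rw [piY_mk]; simp⟩
    | coe x =>
      refine ⟨eps p x • QuotientGroup.mk (s p), ?_⟩
      have h1 : toG p (s p) • (OnePoint.infty : OnePoint (Fbar p)) =
          ((0 : Fbar p) : OnePoint (Fbar p)) := by
        rw [toG_inf]; simp [s]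
      rw [piY_smul, piY_mk, h1, toG_some]
      simp [eps]

def piE : Y p ≃ OnePoint (Fbar p) := Equiv.ofBijective (piY p) (piY_bij p)

lemma piE_apply (y : Y p) : piE p y = piY p y := rfl

lemma piE_symm_smul (g : G p) (x : OnePoint (Fbar p)) :
    g • (piE p).symm x = (piE p).symm (toG p g • x) := by
  apply (piE p).injective
  rw [Equiv.apply_symm_apply, piE_apply, piY_smul, ← piE_apply, Equiv.apply_symm_apply]

lemma piE_symm_inf : (piE p).symm OnePoint.infty = QuotientGroup.mk (1 : G p) := by
  rw [Equiv.symm_apply_eq, piE_apply, piY_mk]; simp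

lemma piE_symm_zero : (piE p).symm ((0 : Fbar p) : OnePoint (Fbar p)) =
    QuotientGroup.mk (s p) := by
  rw [Equiv.symm_apply_eq, piE_apply, piY_mk, toG_inf]
  simp [s]

lemma e_eq (x : Fbar p) : e0 p k x = Finsupp.single ((piE p).symm OnePoint.infty) 1 -
    Finsupp.single ((piE p).symm (x : OnePoint (Fbar p))) 1 := by
  rw [e0, eta0, oneTr0, act0, act0, map_sub]
  simp only [Finsupp.lmapDomain_apply, Finsupp.mapDomain_single]
  rw [← piE_symm_inf]
  have h1 : s p • (piE p).symm OnePoint.infty = (piE p).symm ((0 : Fbar p) : OnePoint (Fbar p)) := by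
    rw [piE_symm_smul, toG_inf]
    simp [s]
  rw [h1, piE_symm_smul, piE_symm_smul, toG_inf, toG_some]
  simp [eps]

/-- the permutation module of pairs -/
abbrev P := (Y p × Y p) →₀ k

def actP (g : G p) : P p k →ₗ[k] P p k := Finsupp.lmapDomain k k (fun q => (g • q.1, g • q.2))

def Psi : M0 p k ⊗[k] M0 p k ≃ₗ[k] P p k := finsuppTensorFinsupp' k (Y p) (Y p)

lemma Psi_act (g : G p) (t : M0 p k ⊗[k] M0 p k) :
    Psi p k (act20 p k g t) = actP p k g (Psi p k t) := by
  have : (Psi p k).toLinearMap ∘ₗ (act20 p k g) = (actP p k g) ∘ₗ (Psi p k).toLinearMap := by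
    apply TensorProduct.ext
    apply Finsupp.lhom_ext'
    intro a
    apply LinearMap.ext_ring
    apply Finsupp.lhom_ext'
    intro b
    apply LinearMap.ext_ring
    simp [Psi, act20, act0, actP, Finsupp.mapDomain_single,
      finsuppTensorFinsupp'_single_tmul_single]
  exact LinearMap.congr_fun this t

/-- the cycle in `P` -/
def RP (a b : Y p) (o : Y p) : P p k :=
  Finsupp.single (a, b) 1 - Finsupp.single (b, a) 1 +
    (Finsupp.single (b, o) 1 - Finsupp.single (o, b) 1) +
    (Finsupp.single (o, a) 1 - Finsupp.single (a, o) 1)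

lemma Psi_rho (x y : Fbar p) : Psi p k (rho0 p k x y) = (1 / 2 : k) •
    RP p k ((piE p).symm x) ((piE p).symm y) ((piE p).symm OnePoint.infty) := by
  rw [rho0, map_smul]
  congr 1
  rw [e_eq, e_eq]
  simp only [TensorProduct.sub_tmul, TensorProduct.tmul_sub, map_sub, Psi,
    finsuppTensorFinsupp'_single_tmul_single, mul_one, RP]
  abel

/-! ### transitivity on pairs and square roots -/

lemma scal_smul {F : Type} [Field F] [DecidableEq F] (A C : GL (Fin 2) F) (c : F) (hc : c ≠ 0)
    (h : ∀ i j, A i j = c * C i j) (x : OnePoint F) : A • x = C • x := by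
  induction x using OnePoint.rec with
  | infty =>
    rw [OnePoint.smul_infty_eq_ite, OnePoint.smul_infty_eq_ite, h, h]
    simp [hc, mul_div_mul_left]
  | coe x =>
    rw [OnePoint.smul_some_eq_ite, OnePoint.smul_some_eq_ite, h, h, h, h]
    have h1 : c * C 1 0 * x + c * C 1 1 = c * (C 1 0 * x + C 1 1) := by ring
    have h2 : c * C 0 0 * x + c * C 0 1 = c * (C 0 0 * x + C 0 1) := by ring
    rw [h1, h2]
    simp [hc, mul_div_mul_left]

lemma exists_SL (A : GL (Fin 2) (Fbar p)) : ∃ g : G p, ∀ x : OnePoint (Fbar p),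
    toG p g • x = A • x := by
  obtain ⟨c, hc⟩ := IsAlgClosed.exists_pow_nat_eq (A.1.det) (n := 2) (by norm_num)
  have hdet : A.1.det ≠ 0 := by
    have := A.isUnit
    rw [Matrix.isUnit_iff_isUnit_det] at this
    exact this.ne_zero
  have hc0 : c ≠ 0 := by
    rintro rfl
    apply hdet
    rw [← hc]; norm_num
  refine ⟨⟨c⁻¹ • A.1, ?_⟩, fun x => ?_⟩
  · rw [Matrix.det_smul, Fintype.card_fin, ← hc, ← mul_pow, inv_mul_cancel₀ hc0, one_pow]
  · exact scal_smul _ _ c⁻¹ (inv_ne_zero hc0) (fun i j => rfl) x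

lemma exists_GL (x y : OnePoint (Fbar p)) (h : x ≠ y) :
    ∃ g : GL (Fin 2) (Fbar p), g • (OnePoint.infty : OnePoint (Fbar p)) = x ∧
      g • ((0 : Fbar p) : OnePoint (Fbar p)) = y := by
  induction x using OnePoint.rec with
  | infty =>
    induction y using OnePoint.rec with
    | infty => exact absurd rfl h
    | coe b =>
      refine ⟨Matrix.GeneralLinearGroup.mkOfDetNeZero !![1, b; 0, 1] (by simp), ?_, ?_⟩
      · rw [OnePoint.smul_infty_eq_ite]
        simp [Matrix.GeneralLinearGroup.mkOfDetNeZero]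
      · rw [OnePoint.smul_some_eq_ite]
        simp [Matrix.GeneralLinearGroup.mkOfDetNeZero]
  | coe a =>
    induction y using OnePoint.rec with
    | infty =>
      refine ⟨Matrix.GeneralLinearGroup.mkOfDetNeZero !![a, 1; 1, 0] (by simp), ?_, ?_⟩
      · rw [OnePoint.smul_infty_eq_ite]
        simp [Matrix.GeneralLinearGroup.mkOfDetNeZero]
      · rw [OnePoint.smul_some_eq_ite]
        simp [Matrix.GeneralLinearGroup.mkOfDetNeZero]
    | coe b =>
      have hab : a - b ≠ 0 := sub_ne_zero.2 (fun e => h (by rw [e]))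
      refine ⟨Matrix.GeneralLinearGroup.mkOfDetNeZero !![a, b; 1, 1] (by simpa using hab), ?_, ?_⟩
      · rw [OnePoint.smul_infty_eq_ite]
        simp [Matrix.GeneralLinearGroup.mkOfDetNeZero]
      · rw [OnePoint.smul_some_eq_ite]
        simp [Matrix.GeneralLinearGroup.mkOfDetNeZero]

lemma exists_G (x y : Y p) (h : x ≠ y) :
    ∃ g : G p, g • (piE p).symm OnePoint.infty = x ∧
      g • (piE p).symm ((0 : Fbar p) : OnePoint (Fbar p)) = y := by
  obtain ⟨A, h1, h2⟩ := exists_GL p (piE p x) (piE p y) (fun e => h ((piE p).injective e))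
  obtain ⟨g, hg⟩ := exists_SL p A
  refine ⟨g, ?_, ?_⟩
  · rw [piE_symm_smul, hg, h1, Equiv.symm_apply_apply]
  · rw [piE_symm_smul, hg, h2, Equiv.symm_apply_apply]

lemma actP_apply (g : G p) (v : P p k) (x y : Y p) :
    (actP p k g v) (x, y) = v (g⁻¹ • x, g⁻¹ • y) := by
  have hinj : Function.Injective (fun q : Y p × Y p => (g • q.1, g • q.2)) := by
    rintro ⟨a, b⟩ ⟨c, d⟩ h
    simp only [Prod.mk.injEq] at h
    exact Prod.ext (MulAction.injective g h.1) (MulAction.injective g h.2)
  have := Finsupp.mapDomain_apply hinj v (g⁻¹ • x, g⁻¹ • y)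
  simp only [smul_inv_smul] at this
  exact this

lemma actP_fst (g : G p) (v : P p k) (hv : Finsupp.mapDomain Prod.fst v = 0) :
    Finsupp.mapDomain Prod.fst (actP p k g v) = 0 := by
  show Finsupp.mapDomain Prod.fst (Finsupp.mapDomain _ v) = 0
  rw [← Finsupp.mapDomain_comp]
  have : (Prod.fst ∘ fun q : Y p × Y p => (g • q.1, g • q.2)) = (fun y => g • y) ∘ Prod.fst := rfl
  rw [this, Finsupp.mapDomain_comp, hv, Finsupp.mapDomain_zero]

/-- The finite level argument inside `P`, for a normalised vector. -/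
lemma core [CharZero k] (N : Submodule k (P p k)) (hN : ∀ g, ∀ n ∈ N, actP p k g n ∈ N)
    (v : P p k) (hvN : v ∈ N) (hanti : ∀ x y, v (x, y) = - v (y, x))
    (hrow : Finsupp.mapDomain Prod.fst v = 0)
    (hv0 : v ((piE p).symm OnePoint.infty, (piE p).symm ((0 : Fbar p) : OnePoint (Fbar p))) = 1)
    (a b : Fbar p) :
    RP p k ((piE p).symm a) ((piE p).symm b) ((piE p).symm OnePoint.infty) ∈ N := by
  classical
  -- the countable field of coefficients
  let k0 : Subfield k := Subfield.closure (v '' (v.support : Set (Y p × Y p)))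
  have hcount : Countable k0 := by
    have h1 : Cardinal.mk k0 ≤ Cardinal.aleph0 := by
      refine le_trans (Subfield.cardinalMk_closure_le_max _) ?_
      refine max_le ?_ le_rfl
      have : (v '' (v.support : Set (Y p × Y p))).Countable :=
        (v.support.finite_toSet.image v).countable
      exact Cardinal.mk_le_aleph0_iff.2 this
    exact Cardinal.mk_le_aleph0_iff.1 h1
  have hmem : ∀ q, v q ∈ k0 := by
    intro q
    by_cases hq : q ∈ v.support
    · exact Subfield.subset_closure ⟨q, hq, rfl⟩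
    · rw [Finsupp.notMem_support_iff.1 hq]; exact k0.zero_mem
  have hcz : CharZero k0 := k0.subtype.charZero
  obtain ⟨σ⟩ := Q170.AS.emb' k0
  let vk : Y p × Y p → k0 := fun q => ⟨v q, hmem q⟩
  let S : ℝ := ∑ q ∈ v.support, ‖σ (vk q)‖
  have hS0 : ∀ q, q ∉ v.support → ‖σ (vk q)‖ = 0 := by
    intro q hq
    have : vk q = 0 := Subtype.ext (Finsupp.notMem_support_iff.1 hq)
    rw [this]; simp
  -- the finite subfield
  obtain ⟨m, hm⟩ := exists_nat_gt (3 * S ^ 4)
  obtain ⟨T1, hT1⟩ := Infinite.exists_subset_card_eq (Fbar p) (m + 2)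
  let fin : OnePoint (Fbar p) → Fbar p := fun x => x.elim 0 (fun z => z)
  let T : Finset (Fbar p) := T1 ∪ {a, b} ∪ (v.support.image (fun q => fin (piE p q.1))) ∪
    (v.support.image (fun q => fin (piE p q.2)))
  let K := IntermediateField.adjoin (ZMod p) (T : Set (Fbar p))
  have hTK : ∀ x ∈ T, x ∈ K := fun x hx => IntermediateField.subset_adjoin _ _ hx
  have hfd : FiniteDimensional (ZMod p) K :=
    IntermediateField.finiteDimensional_adjoin (fun x _ => Algebra.IsIntegral.isIntegral x)
  have hfin : Finite K := Module.finite_of_finite (ZMod p)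
  let _ : Fintype K := Fintype.ofFinite K
  let φ : K →+* Fbar p := algebraMap K (Fbar p)
  have hφ : Function.Injective φ := φ.injective
  let ι : OnePoint K → OnePoint (Fbar p) := OnePoint.map φ
  have hι : Function.Injective ι := Option.map_injective hφ
  let j : OnePoint K → Y p := fun x => (piE p).symm (ι x)
  have hj : Function.Injective j := fun x y h => hι ((piE p).symm.injective h)
  have hjinf : j OnePoint.infty = (piE p).symm OnePoint.infty := rfl
  have hjz : ∀ x : K, j (x : OnePoint K) = (piE p).symm ((x : Fbar p) : OnePoint (Fbar p)) :=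
    fun x => rfl
  have hrange : ∀ y : Y p, fin (piE p y) ∈ T → ∃ x, j x = y := by
    intro y hy
    obtain ⟨x, rfl⟩ := (piE p).symm.surjective y
    rw [Equiv.apply_symm_apply] at hy
    induction x using OnePoint.rec with
    | infty => exact ⟨OnePoint.infty, rfl⟩
    | coe x => exact ⟨((⟨x, hTK _ hy⟩ : K) : OnePoint K), rfl⟩
  have hsupp : ∀ q ∈ v.support, (∃ x, j x = q.1) ∧ (∃ y, j y = q.2) := by
    intro q hq
    refine ⟨hrange _ ?_, hrange _ ?_⟩
    · simp only [T, Finset.mem_union]
      exact Or.inl (Or.inr (Finset.mem_image_of_mem _ hq))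
    · simp only [T, Finset.mem_union]
      exact Or.inr (Finset.mem_image_of_mem _ hq)
  have hcard : (m : ℝ) < (Fintype.card Kˣ : ℝ) := by
    have h1 : T1.card ≤ Fintype.card K := by
      refine Finset.card_le_card_of_injOn (s := T1) (t := (Finset.univ : Finset K))
        (fun x => if h : x ∈ K then ⟨x, h⟩ else 0) (fun x _ => Finset.mem_univ _) ?_
      intro x hx y hy hxy
      have hx' : x ∈ K := hTK x (by simp only [T, Finset.mem_union]; exact Or.inl (Or.inl (Or.inl hx)))
      have hy' : y ∈ K := hTK y (by simp only [T, Finset.mem_union]; exact Or.inl (Or.inl (Or.inl hy)))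
      simp only [hx', hy', dite_true] at hxy
      exact congrArg Subtype.val hxy
    have h2 := Fintype.card_units (α := K)
    have h3 : m < Fintype.card Kˣ := by omega
    exact_mod_cast h3
  -- transport of the finite group
  have hGL : ∀ g : GL (Fin 2) K, ∃ h : G p, ∀ x : OnePoint K, h • j x = j (g • x) := by
    intro g
    obtain ⟨h, hh⟩ := exists_SL p (g.map φ)
    refine ⟨h, fun x => ?_⟩
    show h • (piE p).symm (ι x) = (piE p).symm (ι (g • x))
    rw [piE_symm_smul, hh]
    congr 1
    exact (OnePoint.map_smul φ g x).symm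
  let vK : OnePoint K → OnePoint K → k0 := fun x y => vk (j x, j y)
  have hv1 : ∀ x y, vK x y = - vK y x := fun x y => Subtype.ext (hanti (j x) (j y))
  have hvexp : v = ∑ x : OnePoint K, ∑ y : OnePoint K, Finsupp.single (j x, j y) ((vK x y : k0) : k) := by
    ext q
    simp only [Finsupp.finsetSum_apply, Finsupp.single_apply]
    by_cases hq : q ∈ v.support
    · obtain ⟨⟨x0, hx0⟩, ⟨y0, hy0⟩⟩ := hsupp q hq
      have hq' : (j x0, j y0) = q := Prod.ext hx0 hy0
      rw [Finset.sum_eq_single x0, Finset.sum_eq_single y0]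
      · rw [if_pos hq', ← hq']
      · intro y _ hy
        rw [if_neg]
        intro h
        exact hy (hj (congrArg Prod.snd (h.trans hq'.symm)))
      · intro h; exact absurd (Finset.mem_univ _) h
      · intro x _ hx
        refine Finset.sum_eq_zero fun y _ => ?_
        rw [if_neg]
        intro h
        exact hx (hj (congrArg Prod.fst (h.trans hq'.symm)))
      · intro h; exact absurd (Finset.mem_univ _) h
    · rw [Finsupp.notMem_support_iff.1 hq]
      symm
      refine Finset.sum_eq_zero fun x _ => Finset.sum_eq_zero fun y _ => ?_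
      split_ifs with h
      · show v (j x, j y) = 0
        rw [h]; exact Finsupp.notMem_support_iff.1 hq
      · rfl
  have hv2 : ∀ x, ∑ y, vK x y = 0 := by
    intro x0
    have h0 : Finsupp.mapDomain Prod.fst (∑ x : OnePoint K, ∑ y : OnePoint K,
        Finsupp.single (j x, j y) ((vK x y : k0) : k)) = 0 := by
      rw [← hvexp]; exact hrow
    have h1 := congrArg (fun f => f (j x0)) h0
    simp only [Finsupp.mapDomain_finsetSum, Finsupp.mapDomain_single, Finsupp.finsetSum_apply,
      Finsupp.single_apply, hj.eq_iff, Finsupp.coe_zero, Pi.zero_apply] at h1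
    rw [Finset.sum_eq_single x0] at h1
    · apply Subtype.ext
      simpa using h1
    · intro x _ hx
      refine Finset.sum_eq_zero fun y _ => ?_
      rw [if_neg hx]
    · intro h; exact absurd (Finset.mem_univ _) h
  have hSK : ∑ z : Kˣ, ∑ w : Kˣ, ‖σ (vK ((z : K) : OnePoint K) ((w : K) : OnePoint K))‖ ≤ S := by
    let J2 : Kˣ × Kˣ → Y p × Y p := fun q =>
      (j ((q.1 : K) : OnePoint K), j ((q.2 : K) : OnePoint K))
    have hJ2 : Function.Injective J2 := by
      rintro ⟨z, w⟩ ⟨z', w'⟩ h
      have h1 := hj (congrArg Prod.fst h)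
      have h2 := hj (congrArg Prod.snd h)
      have h1' : (z : K) = z' := OnePoint.coe_injective h1
      have h2' : (w : K) = w' := OnePoint.coe_injective h2
      exact Prod.ext (Units.ext h1') (Units.ext h2')
    calc ∑ z : Kˣ, ∑ w : Kˣ, ‖σ (vK ((z : K) : OnePoint K) ((w : K) : OnePoint K))‖
        = ∑ q : Kˣ × Kˣ, ‖σ (vk (J2 q))‖ := by
          rw [Fintype.sum_prod_type]
      _ = ∑ q ∈ Finset.univ.image J2, ‖σ (vk q)‖ := by
          rw [Finset.sum_image (fun x _ y _ h => hJ2 h)]
      _ = ∑ q ∈ Finset.univ.image J2 ∩ v.support, ‖σ (vk q)‖ := by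
          symm
          refine Finset.sum_subset Finset.inter_subset_left ?_
          intro q hq hq'
          apply hS0
          intro h
          exact hq' (Finset.mem_inter.2 ⟨hq, h⟩)
      _ ≤ S := Finset.sum_le_sum_of_subset_of_nonneg Finset.inter_subset_right
          (fun _ _ _ => norm_nonneg _)
  have hspan := Q170.AS.span_level σ hv1 hv2 (Subtype.ext hv0) hSK (hm.trans hcard)
    ((⟨a, hTK a (by simp [T])⟩ : K) : OnePoint K) ((⟨b, hTK b (by simp [T])⟩ : K) : OnePoint K)
  let J : (OnePoint K × OnePoint K → k0) →ₗ[k0] P p k :=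
    { toFun := fun φ => ∑ q, Finsupp.single (j q.1, j q.2) ((φ q : k0) : k)
      map_add' := by
        intro f g
        simp [Finset.sum_add_distrib]
      map_smul' := by
        intro c f
        simp only [RingHom.id_apply, Finset.smul_sum, Finsupp.smul_single]
        refine Finset.sum_congr rfl fun q _ => ?_
        congr 1 }
  have hJs : ∀ x y : OnePoint K, J (Pi.single (x, y) 1) = Finsupp.single (j x, j y) 1 := by
    intro x y
    show ∑ q, Finsupp.single (j q.1, j q.2) (((Pi.single (x, y) (1 : k0) :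
      OnePoint K × OnePoint K → k0) q : k0) : k) = _
    rw [Finset.sum_eq_single (x, y)]
    · simp
    · intro q _ hq
      rw [Pi.single_eq_of_ne hq]; simp
    · intro h; exact absurd (Finset.mem_univ _) h
  have hle : Submodule.span k0 (Set.range (fun g : GL (Fin 2) K =>
      fun q : OnePoint K × OnePoint K => vK (g • q.1) (g • q.2))) ≤
      (N.restrictScalars k0).comap J := by
    rw [Submodule.span_le]
    rintro _ ⟨g, rfl⟩
    show J _ ∈ N
    obtain ⟨h, hh⟩ := hGL g⁻¹
    have h1 : actP p k h v ∈ N := hN h v hvN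
    have h2 : J (fun q : OnePoint K × OnePoint K => vK (g • q.1) (g • q.2)) = actP p k h v := by
      have h3 : actP p k h v = actP p k h (∑ x : OnePoint K, ∑ y : OnePoint K,
          Finsupp.single (j x, j y) ((vK x y : k0) : k)) := by rw [← hvexp]
      rw [h3]
      show ∑ q : OnePoint K × OnePoint K, Finsupp.single (j q.1, j q.2)
        ((vK (g • q.1) (g • q.2) : k0) : k) = _
      rw [Fintype.sum_prod_type, map_sum]
      refine Fintype.sum_equiv (MulAction.toPerm g) _ _ (fun x => ?_)
      rw [map_sum]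
      refine Fintype.sum_equiv (MulAction.toPerm g) _ _ (fun y => ?_)
      simp only [actP, Finsupp.lmapDomain_apply, Finsupp.mapDomain_single, hh,
        MulAction.toPerm_apply, inv_smul_smul]
    rw [h2]; exact h1
  have hfinal := hle hspan
  have h5 : J (Q170.AS.RR k0 ((⟨a, hTK a (by simp [T])⟩ : K) : OnePoint K)
      ((⟨b, hTK b (by simp [T])⟩ : K) : OnePoint K)) ∈ N := hfinal
  simp only [Q170.AS.RR, map_add, map_sub, hJs] at h5
  exact h5

lemma single_swap (a b x y : Y p) :
    (Finsupp.single (a, b) (1 : k)) (y, x) = (Finsupp.single (b, a) (1 : k)) (x, y) := by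
  classical
  simp only [Finsupp.single_apply, Prod.mk.injEq]
  simp only [and_comm]

lemma RP_anti (a b o x y : Y p) : RP p k a b o (x, y) = - RP p k a b o (y, x) := by
  simp only [RP, Finsupp.add_apply, Finsupp.sub_apply]
  rw [single_swap p k a b x y, single_swap p k b a x y, single_swap p k b o x y,
    single_swap p k o b x y, single_swap p k o a x y, single_swap p k a o x y]
  ring

lemma RP_fst (a b o : Y p) : Finsupp.mapDomain Prod.fst (RP p k a b o) = 0 := by
  show Finsupp.lmapDomain k k Prod.fst (RP p k a b o) = 0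
  simp only [RP, map_add, map_sub, Finsupp.lmapDomain_apply, Finsupp.mapDomain_single]
  abel

/-- the subspace of `P` of antisymmetric elements with zero row sums -/
def V0 : Submodule k (P p k) where
  carrier := {v | (∀ x y, v (x, y) = - v (y, x)) ∧ Finsupp.mapDomain Prod.fst v = 0}
  zero_mem' := by simp
  add_mem' := by
    rintro a b ⟨ha, ha'⟩ ⟨hb, hb'⟩
    refine ⟨fun x y => ?_, ?_⟩
    · simp only [Finsupp.add_apply]; rw [ha, hb]; ring
    · rw [Finsupp.mapDomain_add, ha', hb', add_zero]
  smul_mem' := by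
    rintro c a ⟨ha, ha'⟩
    refine ⟨fun x y => ?_, ?_⟩
    · simp only [Finsupp.smul_apply, smul_eq_mul]; rw [ha]; ring
    · rw [Finsupp.mapDomain_smul, ha', smul_zero]

lemma Vminus_le : Vminus0 p k ≤ (V0 p k).comap (Psi p k).toLinearMap := by
  rw [Vminus0, Submodule.span_le]
  rintro _ ⟨x, y, _, rfl⟩
  show Psi p k (rho0 p k x y) ∈ V0 p k
  rw [Psi_rho]
  exact Submodule.smul_mem _ _ ⟨RP_anti p k _ _ _, RP_fst p k _ _ _⟩

lemma rho_ne_zero [CharZero k] : rho0 p k 1 0 ≠ 0 := by
  classical
  intro h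
  have h1 : Psi p k (rho0 p k 1 0) ((piE p).symm ((1 : Fbar p) : OnePoint (Fbar p)),
      (piE p).symm ((0 : Fbar p) : OnePoint (Fbar p))) = 0 := by rw [h]; simp
  rw [Psi_rho] at h1
  simp [RP, (piE p).symm.injective.eq_iff] at h1

lemma rho_self (x : Fbar p) : rho0 p k x x = 0 := by
  rw [rho0, sub_self, smul_zero]

lemma V0_le [CharZero k] : V0 p k ≤ (Vminus0 p k).map (Psi p k).toLinearMap := by
  classical
  set o : Y p := (piE p).symm OnePoint.infty with ho
  let Λ : P p k →ₗ[k] P p k := Finsupp.linearCombination k (fun q : Y p × Y p => RP p k q.1 q.2 o)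
  let L2 : P p k →ₗ[k] P p k := LinearMap.id - Finsupp.lmapDomain k k Prod.swap +
    (Finsupp.lmapDomain k k (fun q : Y p × Y p => (q.2, o)) -
      Finsupp.lmapDomain k k (fun q : Y p × Y p => (o, q.2))) +
    (Finsupp.lmapDomain k k (fun q : Y p × Y p => (o, q.1)) -
      Finsupp.lmapDomain k k (fun q : Y p × Y p => (q.1, o)))
  have hL : Λ = L2 := by
    apply Finsupp.lhom_ext'
    intro q
    apply LinearMap.ext_ring
    simp [Λ, L2, RP, Finsupp.mapDomain_single]
    rfl
  have hRP : ∀ x y : Y p, RP p k x y o ∈ (Vminus0 p k).map (Psi p k).toLinearMap := by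
    intro x y
    by_cases hx : x = o
    · subst hx
      have : RP p k o y o = 0 := by rw [RP]; abel
      rw [this]; exact Submodule.zero_mem _
    by_cases hy : y = o
    · subst hy
      have : RP p k x o o = 0 := by rw [RP]; abel
      rw [this]; exact Submodule.zero_mem _
    obtain ⟨x', rfl⟩ := (piE p).symm.surjective x
    obtain ⟨y', rfl⟩ := (piE p).symm.surjective y
    induction x' using OnePoint.rec with
    | infty => exact absurd rfl hx
    | coe a =>
      induction y' using OnePoint.rec with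
      | infty => exact absurd rfl hy
      | coe b =>
        by_cases hab : a = b
        · subst hab
          have : RP p k ((piE p).symm (a : OnePoint (Fbar p))) ((piE p).symm a) o = 0 := by
            rw [RP]; abel
          rw [this]; exact Submodule.zero_mem _
        · refine ⟨(2 : k) • rho0 p k a b, Submodule.smul_mem _ _
            (Submodule.subset_span ⟨a, b, hab, rfl⟩), ?_⟩
          show Psi p k ((2 : k) • rho0 p k a b) = _
          rw [map_smul, Psi_rho, smul_smul]
          norm_num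
          rfl
  rintro v ⟨h1, h2⟩
  have hsw : Finsupp.mapDomain Prod.swap v = -v := by
    ext ⟨x, y⟩
    have := Finsupp.mapDomain_apply (Prod.swap_injective) v (y, x)
    rw [Prod.swap_prod_mk] at this
    rw [this, Finsupp.neg_apply, h1]
  have hsnd : Finsupp.mapDomain Prod.snd v = 0 := by
    have h3 : (Prod.snd : Y p × Y p → Y p) = Prod.fst ∘ Prod.swap := rfl
    rw [h3, Finsupp.mapDomain_comp, hsw, ← Finsupp.lmapDomain_apply k k Prod.fst, map_neg,
      Finsupp.lmapDomain_apply, h2, neg_zero]
  have e1 : Finsupp.mapDomain (fun q : Y p × Y p => (q.2, o)) v = 0 := by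
    have h3 : (fun q : Y p × Y p => (q.2, o)) = (fun y => (y, o)) ∘ Prod.snd := rfl
    rw [h3, Finsupp.mapDomain_comp, hsnd, Finsupp.mapDomain_zero]
  have e2 : Finsupp.mapDomain (fun q : Y p × Y p => (o, q.2)) v = 0 := by
    have h3 : (fun q : Y p × Y p => (o, q.2)) = (fun y => (o, y)) ∘ Prod.snd := rfl
    rw [h3, Finsupp.mapDomain_comp, hsnd, Finsupp.mapDomain_zero]
  have e3 : Finsupp.mapDomain (fun q : Y p × Y p => (o, q.1)) v = 0 := by
    have h3 : (fun q : Y p × Y p => (o, q.1)) = (fun y => (o, y)) ∘ Prod.fst := rfl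
    rw [h3, Finsupp.mapDomain_comp, h2, Finsupp.mapDomain_zero]
  have e4 : Finsupp.mapDomain (fun q : Y p × Y p => (q.1, o)) v = 0 := by
    have h3 : (fun q : Y p × Y p => (q.1, o)) = (fun y => (y, o)) ∘ Prod.fst := rfl
    rw [h3, Finsupp.mapDomain_comp, h2, Finsupp.mapDomain_zero]
  have hΛ : Λ v = (2 : k) • v := by
    rw [hL]
    simp only [L2, LinearMap.add_apply, LinearMap.sub_apply, LinearMap.id_apply,
      Finsupp.lmapDomain_apply, hsw, e1, e2, e3, e4]
    rw [two_smul]; abel
  have hmem : Λ v ∈ (Vminus0 p k).map (Psi p k).toLinearMap := by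
    show Finsupp.linearCombination k _ v ∈ _
    rw [Finsupp.linearCombination_apply, Finsupp.sum]
    exact Submodule.sum_mem _ fun q _ => Submodule.smul_mem _ _ (hRP _ _)
  rw [hΛ] at hmem
  have := Submodule.smul_mem _ (2 : k)⁻¹ hmem
  rwa [smul_smul, inv_mul_cancel₀ (two_ne_zero), one_smul] at this

/-- **`V_-` is a simple module.** For every prime `p` and every field `k` of characteristic `0`,
`V_-` is a nonzero `G`-stable subspace, and its only `G`-stable subspaces are `0` and `V_-`. -/
theorem result0 [CharZero k] :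
    Vminus0 p k ≠ ⊥ ∧ (∀ g : G p, ∀ t ∈ Vminus0 p k, act20 p k g t ∈ Vminus0 p k) ∧
    ∀ N : Submodule k (M0 p k ⊗[k] M0 p k), N ≤ Vminus0 p k →
      (∀ g : G p, ∀ t ∈ N, act20 p k g t ∈ N) → N = ⊥ ∨ N = Vminus0 p k := by
  refine ⟨?_, ?_, ?_⟩
  · intro h
    have h1 : rho0 p k 1 0 ∈ Vminus0 p k := Submodule.subset_span ⟨1, 0, one_ne_zero, rfl⟩
    rw [h] at h1
    exact rho_ne_zero p k ((Submodule.mem_bot k).1 h1)
  · intro g t ht
    obtain ⟨h1, h2⟩ : Psi p k t ∈ V0 p k := Vminus_le p k ht
    have h3 : Psi p k (act20 p k g t) ∈ V0 p k := by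
      rw [Psi_act]
      exact ⟨fun x y => by rw [actP_apply, actP_apply, h1], actP_fst p k g _ h2⟩
    obtain ⟨n, hn, hn'⟩ := V0_le p k h3
    have : n = act20 p k g t := (Psi p k).injective hn'
    rw [← this]; exact hn
  · intro N hNV hNG
    by_cases hbot : N = ⊥
    · exact Or.inl hbot
    right
    obtain ⟨t, htN, ht0⟩ := N.ne_bot_iff.1 hbot
    let N' : Submodule k (P p k) := N.map (Psi p k).toLinearMap
    have hN' : ∀ g, ∀ n ∈ N', actP p k g n ∈ N' := by
      rintro g _ ⟨n, hn, rfl⟩
      refine ⟨act20 p k g n, hNG g n hn, ?_⟩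
      exact Psi_act p k g n
    set v := Psi p k t with hv
    have hvN : v ∈ N' := ⟨t, htN, rfl⟩
    have hv0 : v ≠ 0 := by
      rw [hv]; exact (Psi p k).map_ne_zero_iff.2 ht0
    obtain ⟨hanti, hrow⟩ : v ∈ V0 p k := Vminus_le p k (hNV htN)
    obtain ⟨⟨y1, y2⟩, hy⟩ := Finsupp.ne_iff.1 hv0
    rw [Finsupp.zero_apply] at hy
    have hne : y1 ≠ y2 := by
      rintro rfl
      have h1 := hanti y1 y1
      have h2 : (2 : k) * v (y1, y1) = 0 := by linear_combination h1
      rcases mul_eq_zero.1 h2 with h | h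
      · exact two_ne_zero h
      · exact hy h
    obtain ⟨h, hh1, hh2⟩ := exists_G p y1 y2 hne
    set c := v (y1, y2) with hc
    have hv1 : ∀ x y, (actP p k h⁻¹ v) (x, y) = v (h • x, h • y) := by
      intro x y
      rw [actP_apply, inv_inv]
    have hcore := core p k N' hN' (c⁻¹ • actP p k h⁻¹ v)
      (Submodule.smul_mem _ _ (hN' _ _ hvN))
      (fun x y => by
        rw [Finsupp.smul_apply, Finsupp.smul_apply, hv1, hv1, hanti, smul_neg])
      (by rw [Finsupp.mapDomain_smul, actP_fst p k _ _ hrow, smul_zero])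
      (by rw [Finsupp.smul_apply, hv1, hh1, hh2, ← hc, smul_eq_mul, inv_mul_cancel₀ hy])
    apply le_antisymm hNV
    rw [Vminus0, Submodule.span_le]
    rintro _ ⟨x, y, _, rfl⟩
    have h3 : Psi p k (rho0 p k x y) ∈ N' := by
      rw [Psi_rho]
      exact Submodule.smul_mem _ _ (hcore x y)
    obtain ⟨n, hn, hn'⟩ := h3
    have : n = rho0 p k x y := (Psi p k).injective hn'
    rw [← this]; exact hn

/-- **`V_-` is a simple module.** For every prime `p` and every field `k` of characteristic `0`,
`V_-` is a nonzero `G`-stable subspace, and its only `G`-stable subspaces are `0` and `V_-`. -/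
theorem result [CharZero k] : Vminus p k ≠ ⊥ ∧ Stable p k (Vminus p k) ∧
    ∀ N : Submodule k (MM p k), N ≤ Vminus p k → Stable p k N → N = ⊥ ∨ N = Vminus p k :=
  result0 p k

end

end Pool.Agent.Results.MP_79d1ba_al.AltSquareSimple
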